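import Pool.Agent.H874R2.JonesT

set_option autoImplicit false

universe u

namespace Pool.Agent.Results.MP_3a3191_gt.Indecomposable

open Set Topology TopologicalSpace

/-- F. B. Jones's set function: `T A` is the complement of the set of all points `p` for which
there is a subcontinuum (closed connected nonempty subset) `W` with `p` in the interior of `W` and
`W` disjoint from `A`. -/
def jonesT {S : Type u} [TopologicalSpace S] (A : Set S) : Set S :=
  {p : S | ∃ W : Set S, IsClosed W ∧ IsConnected W ∧ p ∈ interior W ∧ W ∩ A = ∅}ᶜ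

/-- `T` is continuous for the compact Hausdorff space `S`: the assignment `A ↦ T A` is a
continuous map of the hyperspace of nonempty closed (equivalently, nonempty compact) subsets of
`S`, with the Vietoris topology, to itself. -/
def TContinuous (S : Type u) [TopologicalSpace S] : Prop :=
  ∃ F : NonemptyCompacts S → NonemptyCompacts S, Continuous F ∧
    ∀ A : NonemptyCompacts S, (F A : Set S) = jonesT (A : Set S)

/-- `S` is indecomposable: it is not the union of two proper subcontinua. -/
def Indecomposable (S : Type u) [TopologicalSpace S] : Prop :=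
  ∀ A B : Set S, IsClosed A → IsConnected A → IsClosed B → IsConnected B →
    A ∪ B = univ → A = univ ∨ B = univ

/-- Let `S` be a compact connected Hausdorff space such that Jones's set function `T` is
continuous for `S`. If `T {p}` has nonempty interior for some point `p` then `S` is
indecomposable. -/
theorem result : ∀ (S : Type u) [TopologicalSpace S] [CompactSpace S] [T2Space S]
    [ConnectedSpace S], TContinuous S → (∃ p : S, (interior (jonesT {p})).Nonempty) →
    Indecomposable S := by
  intro S _ _ _ _ hF hp
  have hTe : ∀ A : Set S, jonesT A = Pool.Agent.H874R2.JT.T A := by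
    intro A
    ext x
    rw [← not_iff_not, Pool.Agent.H874R2.JT.notMem_T]
    simp only [jonesT, mem_compl_iff, not_not]
    rfl
  obtain ⟨F, hFc, hF⟩ := hF
  have hviet : Pool.Agent.H874R2.JT.viet S = TopologicalSpace.vietoris S := by
    unfold Pool.Agent.H874R2.JT.viet TopologicalSpace.vietoris
    congr 1
    ext 𝒰
    constructor
    · rintro (⟨U, hU, rfl⟩ | ⟨U, hU, rfl⟩)
      · exact Or.inl ⟨U, hU, rfl⟩
      · exact Or.inr ⟨U, hU, rfl⟩
    · rintro (⟨U, hU, rfl⟩ | ⟨U, hU, rfl⟩)
      · exact Or.inl ⟨U, hU, rfl⟩
      · exact Or.inr ⟨U, hU, rfl⟩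
  have hcont : @Continuous {A : Set S // IsClosed A ∧ A.Nonempty} (Set S)
      (TopologicalSpace.induced Subtype.val (Pool.Agent.H874R2.JT.viet S))
      (Pool.Agent.H874R2.JT.viet S) (fun A => Pool.Agent.H874R2.JT.T A.1) := by
    rw [hviet]
    let _ : TopologicalSpace (Set S) := TopologicalSpace.vietoris S
    have h1 : Continuous (fun A : {A : Set S // IsClosed A ∧ A.Nonempty} =>
        (⟨⟨A.1, A.2.1.isCompact⟩, A.2.2⟩ : NonemptyCompacts S)) :=
      continuous_induced_rng.2 continuous_subtype_val
    have h2 : Continuous (fun A : NonemptyCompacts S => (A : Set S)) := continuous_induced_dom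
    have h3 := h2.comp (hFc.comp h1)
    have e : (fun A : {A : Set S // IsClosed A ∧ A.Nonempty} => Pool.Agent.H874R2.JT.T A.1) =
        ((fun A : NonemptyCompacts S => (A : Set S)) ∘ F ∘
          fun A : {A : Set S // IsClosed A ∧ A.Nonempty} =>
            (⟨⟨A.1, A.2.1.isCompact⟩, A.2.2⟩ : NonemptyCompacts S)) := by
      funext A
      simp only [Function.comp]
      rw [hF, hTe]
      rfl
    rw [e]
    exact h3
  have h := Pool.Agent.H874R2.JT.tcont_of_continuous hcont
  obtain ⟨p, hp⟩ := hp
  rw [hTe] at hp
  have huniv := h.eq_univ_of_interior hp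
  intro A B hA hAc hB hBc hAB
  by_contra hcon
  push Not at hcon
  obtain ⟨h1, h2⟩ := hcon
  obtain ⟨a, ha⟩ := (ne_univ_iff_exists_notMem A).1 h1
  obtain ⟨b, hb⟩ := (ne_univ_iff_exists_notMem B).1 h2
  have hbT : b ∈ Pool.Agent.H874R2.JT.T {a} := by rw [huniv]; exact mem_univ b
  obtain ⟨x, hxA, hxa⟩ := hbT A hA hAc (mem_interior.2 ⟨Bᶜ, fun y hy => by
    have : y ∈ A ∪ B := by rw [hAB]; exact mem_univ y
    exact this.resolve_right hy, hB.isOpen_compl, hb⟩)
  rw [mem_singleton_iff] at hxa
  subst hxa
  exact ha hxA

end Pool.Agent.Results.MP_3a3191_gt.Indecomposable
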